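import Pool.Agent.W559.Et.Stm5

/-! # Project Et: the wild and the tame part of an automorphism of finite order -/

set_option autoImplicit false

universe u

namespace Pool.Agent.W85.Et

open Pool.Agent.W559.Et

section

variable {k K : Type u} [Field k] [Field K] [Algebra k K]

lemma pow_mem_of_stable {σ : K →ₐ[k] K} {B : Subalgebra k K} (hB : ∀ x ∈ B, σ x ∈ B) (n : ℕ) :
    ∀ x ∈ B, (σ ^ n) x ∈ B := by
  induction n with
  | zero => intro x hx; exact hx
  | succ n ih =>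
    intro x hx
    rw [pow_succ', AlgHom.mul_apply]
    exact hB _ (ih x hx)

lemma LL_transfer {ρ ρ' : K →ₐ[k] K} {B : Subalgebra k K} (hB : ∀ x ∈ B, ρ' x ∈ B) {a c : ℕ}
    (h1 : ρ' = ρ ^ a) (h2 : ρ = ρ' ^ c) (h : LL ρ B) : LL ρ' B := by
  intro q hq hc
  have key : ∀ n : ℕ, ∀ x ∈ B, ∀ h' : (ρ' ^ n) x - x ∈ B, (⟨(ρ' ^ n) x - x, h'⟩ : B) ∈ q := by
    intro n
    induction n with
    | zero =>
      intro x hx h'
      have e : (⟨(ρ' ^ 0) x - x, h'⟩ : B) = 0 := Subtype.ext (by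
        change (ρ' ^ 0) x - x = 0
        rw [pow_zero, AlgHom.one_apply, sub_self])
      rw [e]
      exact q.zero_mem
    | succ n ih =>
      intro x hx h'
      have h3 := pow_mem_of_stable hB n x hx
      have h4 : (ρ' ^ n) x - x ∈ B := B.sub_mem h3 hx
      have h5 : ρ' ((ρ' ^ n) x) - (ρ' ^ n) x ∈ B := B.sub_mem (hB _ h3) h3
      have e : (⟨(ρ' ^ (n + 1)) x - x, h'⟩ : B) =
          (⟨ρ' ((ρ' ^ n) x) - (ρ' ^ n) x, h5⟩ : B) + ⟨(ρ' ^ n) x - x, h4⟩ := Subtype.ext (by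
        change (ρ' ^ (n + 1)) x - x = (ρ' ((ρ' ^ n) x) - (ρ' ^ n) x) + ((ρ' ^ n) x - x)
        rw [pow_succ', AlgHom.mul_apply]
        ring)
      rw [e]
      exact q.add_mem (hc _ h3 h5) (ih x hx h4)
  obtain ⟨f, hf, hfq, hρf, m, x, T, het, hT⟩ := h q hq (fun z hz h' => by
    subst h2
    exact key c z hz h')
  refine ⟨f, hf, hfq, ?_, m, x, T ^ a, het, ?_⟩
  · rw [h1]
    have h3 : ∀ n : ℕ, (ρ ^ n) f = f := by
      intro n
      induction n with
      | zero => rfl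
      | succ n ih => rw [pow_succ', AlgHom.mul_apply, ih, hρf]
    exact h3 a
  · rw [h1]
    have h3 : ∀ n : ℕ, ∀ v : Fin m → k,
        (ρ ^ n) (∑ i, v i • (x i : K)) = ∑ i, (T ^ n) v i • (x i : K) := by
      intro n
      induction n with
      | zero => intro v; rfl
      | succ n ih =>
        intro v
        rw [pow_succ', AlgHom.mul_apply, ih, hT, pow_succ', Module.End.mul_apply]
    exact h3 a

end

theorem grp : GrpStm.{u} := by
  intro k K _ _ _ τ p m hp hpk hmk hζ hτ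
  obtain ⟨ζ, hζ⟩ := hζ
  have hm0 : 0 < m := by
    rcases Nat.eq_zero_or_pos m with h | h
    · exact absurd (by rw [h]; exact Nat.cast_zero) hmk
    · exact h
  have hpm : ¬ p ∣ m := by
    rintro ⟨t, ht⟩
    apply hmk
    rw [ht]
    push_cast
    rw [hpk, zero_mul]
  have hco : Nat.Coprime (p * p) m := by
    have h := (Nat.Prime.coprime_iff_not_dvd hp).2 hpm
    exact Nat.Coprime.mul_left h h
  have hord : τ ^ (p * p * m) = 1 := by
    apply AlgHom.ext
    intro x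
    rw [AlgHom.one_apply, AlgHom.coe_pow]
    exact hτ x
  have hmod : ∀ n n' : ℕ, n ≡ n' [MOD (p * p * m)] → τ ^ n = τ ^ n' := by
    intro n n' h
    exact pow_eq_pow_of_modEq h hord
  obtain ⟨e, he1, he2⟩ := Nat.chineseRemainder hco 1 0
  obtain ⟨b, hb1, hb2⟩ := Nat.chineseRemainder hco 0 1
  obtain ⟨a, rfl⟩ : m ∣ e := (Nat.modEq_zero_iff_dvd).1 he2
  obtain ⟨b', rfl⟩ : p * p ∣ b := (Nat.modEq_zero_iff_dvd).1 hb1
  have hsum : m * a + p * p * b' ≡ 1 [MOD (p * p * m)] := by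
    rw [← Nat.modEq_and_modEq_iff_modEq_mul hco]
    exact ⟨he1.add hb1, he2.add hb2⟩
  have hγm : (τ ^ (m * a)) ^ m = τ ^ m := by
    rw [← pow_mul]
    apply hmod
    have := he1.mul_right' m
    rwa [one_mul] at this
  have hhm : (τ ^ (p * p * b')) ^ m = 1 := by
    rw [← pow_mul, show p * p * b' * m = p * p * m * b' by ring, pow_mul, hord, one_pow]
  have hM0 : 0 < orderOf (τ ^ (p * p * b')) :=
    orderOf_pos_iff.2 (isOfFinOrder_iff_pow_eq_one.2 ⟨m, hm0, hhm⟩)
  obtain ⟨t, ht⟩ := orderOf_dvd_of_pow_eq_one hhm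
  refine ⟨τ ^ (m * a), τ ^ (p * p * b'), orderOf (τ ^ (p * p * b')), ζ ^ t, a, p * p * b', m,
    ⟨hp, hpk, ?_, hM0, ?_, ?_, ?_, ?_, ?_⟩, rfl, hγm.symm, rfl, ?_, ?_⟩
  · intro x
    rw [← AlgHom.coe_pow, ← pow_mul, show m * a * (p * p) = p * p * m * a by ring, pow_mul, hord,
      one_pow, AlgHom.one_apply]
  · intro h0
    apply hmk
    rw [ht]
    push_cast
    rw [h0, zero_mul]
  · exact hζ.pow hm0 (by rw [mul_comm]; exact ht)
  · intro x
    rw [← AlgHom.coe_pow, pow_orderOf_eq_one, AlgHom.one_apply]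
  · intro j hj hjM
    by_contra hcon
    push Not at hcon
    have h1 : (τ ^ (p * p * b')) ^ j = 1 := by
      apply AlgHom.ext
      intro x
      rw [AlgHom.one_apply, AlgHom.coe_pow]
      exact hcon x
    have h2 := orderOf_le_of_pow_eq_one hj h1
    omega
  · intro x
    rw [← AlgHom.mul_apply, ← AlgHom.mul_apply, ← pow_add, ← pow_add, add_comm]
  · intro x
    constructor
    · rintro ⟨h1, h2⟩
      have h3 : τ = τ ^ (m * a) * τ ^ (p * p * b') := by
        rw [← pow_add, hmod _ _ hsum, pow_one]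
      rw [h3, AlgHom.mul_apply, h2, h1]
    · intro h1
      have h3 : ∀ n : ℕ, (τ ^ n) x = x := by
        intro n
        induction n with
        | zero => rfl
        | succ n ih => rw [pow_succ', AlgHom.mul_apply, ih, h1]
      exact ⟨h3 _, h3 _⟩
  · intro B hB h1 h2
    have hγ := pow_mem_of_stable hB (m * a)
    refine ⟨LL_transfer hγ (pow_mul τ m a) hγm.symm h1,
      LL_transfer (pow_mem_of_stable hγ p) (a := a) (c := m) ?_ ?_ h2⟩
    · rw [← pow_mul, ← pow_mul]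
      congr 1
      ring
    · calc τ ^ (m * p) = (τ ^ m) ^ p := pow_mul τ m p
        _ = ((τ ^ (m * a)) ^ m) ^ p := by rw [hγm]
        _ = ((τ ^ (m * a)) ^ p) ^ m := by
          rw [← pow_mul (τ ^ (m * a)) m p, ← pow_mul (τ ^ (m * a)) p m, mul_comm m p]

end Pool.Agent.W85.Et
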